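import Pool.Agent.Helper63.P705.BS.Goals

set_option autoImplicit false

noncomputable section

namespace Pool.Agent.Helper79.BS

open Pool.Agent.Helper63.P705 (sqF lp lp2 cnd pwr pwL)

theorem sqF_sq (n x0 : ℕ) : sqF n x0 ^ 2 ≤ n := by
  unfold sqF
  rw [Pool.Agent.Helper63.P705.sq_eq]
  generalize lp 12 _ x0 = r
  rw [Pool.Agent.Helper63.P705.cnd_eq]
  by_cases h : r * r ≤ n
  · rw [if_pos (by rw [Nat.ble_eq]; exact h), pow_two]
    exact h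
  · rw [if_neg (by rw [Nat.ble_eq]; exact h), Pool.Agent.Helper63.P705.sq_eq,
      Pool.Agent.Helper63.P705.cnd_eq]
    by_cases h' : (r - 1) * (r - 1) ≤ n
    · rw [if_pos (by rw [Nat.ble_eq]; exact h'), pow_two]
      exact h'
    · rw [if_neg (by rw [Nat.ble_eq]; exact h')]
      exact Nat.zero_le _

/-- the step of the loop in `pwr` -/
def stp (r : ℕ) : ℕ → ℕ → ℕ → (ℕ → ℕ → ℕ) → ℕ := fun i cur acc k =>
    Pool.Agent.Helper63.P705.sq (sqF (Nat.shiftLeft cur 60) cur) fun cur' =>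
    Pool.Agent.Helper63.P705.sq (cnd (Nat.beq (Nat.land (Nat.shiftRight r i) 1) 0) acc
      (Nat.shiftRight (Nat.mul acc cur') 60)) fun acc' => k cur' acc'

theorem pwr_eq (s r : ℕ) : pwr s r = lp2 13 (stp r) (fun _ acc => acc) s (Nat.shiftLeft 1 60) := rfl

theorem sl (a k : ℕ) : Nat.shiftLeft a k = a * 2 ^ k := Nat.shiftLeft_eq a k

theorem sr (a k : ℕ) : Nat.shiftRight a k = a / 2 ^ k := Nat.shiftRight_eq_div_pow a k

theorem half_bit (r i : ℕ) : Nat.land (Nat.shiftRight r i) 1 = r / 2 ^ i % 2 := by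
  rw [sr]
  exact Nat.and_one_is_mod _

theorem step_div (r i : ℕ) : r / 2 ^ i = 2 * (r / 2 ^ (i + 1)) + r / 2 ^ i % 2 := by
  have h : r / 2 ^ (i + 1) = r / 2 ^ i / 2 := by
    rw [pow_succ, Nat.div_div_eq_div_mul]
  rw [h]
  omega

theorem div_cast_le (a k : ℕ) : ((a / 2 ^ k : ℕ) : ℝ) ≤ (a : ℝ) / 2 ^ k := by
  have := @Nat.cast_div_le ℝ _ _ _ a (2 ^ k)
  simpa using this

theorem loop_le (r : ℕ) (σ B : ℝ) (hσ : 0 ≤ σ) (hB : B = 2 ^ 60) : ∀ (n cur acc : ℕ),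
    (cur : ℝ) ≤ B * σ ^ ((2 : ℝ) ^ n / 8192) →
    (acc : ℝ) ≤ B * σ ^ ((2 : ℝ) ^ n * ((r / 2 ^ n : ℕ) : ℝ) / 8192) →
    ((lp2 n (stp r) (fun _ acc => acc) cur acc : ℕ) : ℝ) ≤ B * σ ^ ((r : ℝ) / 8192) := by
  have hB0 : 0 < B := by rw [hB]; positivity
  intro n
  induction n with
  | zero =>
    intro cur acc _ h2
    rw [Pool.Agent.Helper63.P705.lp2_zero]
    simpa using h2
  | succ n ih =>
    intro cur acc h1 h2
    rw [Pool.Agent.Helper63.P705.lp2_succ]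
    unfold stp
    rw [Pool.Agent.Helper63.P705.sq_eq, Pool.Agent.Helper63.P705.sq_eq,
      Pool.Agent.Helper63.P705.cnd_eq]
    have hsq := sqF_sq (Nat.shiftLeft cur 60) cur
    generalize sqF (Nat.shiftLeft cur 60) cur = c at hsq ⊢
    rw [sl] at hsq
    have hsq' : (c : ℝ) ^ 2 ≤ B * cur := by
      have : ((c ^ 2 : ℕ) : ℝ) ≤ ((cur * 2 ^ 60 : ℕ) : ℝ) := Nat.cast_le.mpr hsq
      rw [hB]
      push_cast at this
      linarith
    have hp : σ ^ ((2 : ℝ) ^ (n + 1) / 8192) = (σ ^ ((2 : ℝ) ^ n / 8192)) ^ 2 := by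
      rw [← Real.rpow_natCast (σ ^ ((2 : ℝ) ^ n / 8192)) 2, ← Real.rpow_mul hσ]
      congr 1
      push_cast
      ring
    have hc : (c : ℝ) ≤ B * σ ^ ((2 : ℝ) ^ n / 8192) := by
      have h3 : (c : ℝ) ^ 2 ≤ (B * σ ^ ((2 : ℝ) ^ n / 8192)) ^ 2 := by
        calc (c : ℝ) ^ 2 ≤ B * cur := hsq'
          _ ≤ B * (B * σ ^ ((2 : ℝ) ^ (n + 1) / 8192)) := mul_le_mul_of_nonneg_left h1 hB0.le
          _ = _ := by rw [hp]; ring
      have h4 : 0 ≤ B * σ ^ ((2 : ℝ) ^ n / 8192) := mul_nonneg hB0.le (Real.rpow_nonneg hσ _)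
      exact (pow_le_pow_iff_left₀ (Nat.cast_nonneg c) h4 (by norm_num)).mp h3
    apply ih
    · exact hc
    · rw [half_bit]
      have hd := step_div r n
      by_cases hb : r / 2 ^ n % 2 = 0
      · rw [if_pos (by rw [hb]; rfl)]
        rw [hb, add_zero] at hd
        have he : (2 : ℝ) ^ n * ((r / 2 ^ n : ℕ) : ℝ) / 8192 =
            (2 : ℝ) ^ (n + 1) * ((r / 2 ^ (n + 1) : ℕ) : ℝ) / 8192 := by
          rw [hd, pow_succ (2 : ℝ) n, Nat.cast_mul, Nat.cast_two]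
          ring
        rw [he]
        exact h2
      · have hb1 : r / 2 ^ n % 2 = 1 := by omega
        rw [if_neg (by rw [hb1]; decide), sr]
        rw [hb1] at hd
        have he : (2 : ℝ) ^ n * ((r / 2 ^ n : ℕ) : ℝ) / 8192 =
            (2 : ℝ) ^ (n + 1) * ((r / 2 ^ (n + 1) : ℕ) : ℝ) / 8192 + (2 : ℝ) ^ n / 8192 := by
          rw [hd, pow_succ (2 : ℝ) n, Nat.cast_add, Nat.cast_mul, Nat.cast_two, Nat.cast_one]
          ring
        rw [he, Real.rpow_add_of_nonneg hσ (by positivity) (by positivity)]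
        have h5 : (((Nat.mul acc c) / 2 ^ 60 : ℕ) : ℝ) ≤ ((acc : ℝ) * c) / B := by
          have := div_cast_le (acc * c) 60
          rw [hB]
          rw [Nat.cast_mul] at this
          exact this
        refine h5.trans ?_
        rw [div_le_iff₀ hB0]
        calc (acc : ℝ) * c ≤ (B * σ ^ ((2 : ℝ) ^ (n + 1) * ((r / 2 ^ (n + 1) : ℕ) : ℝ) / 8192)) *
              (B * σ ^ ((2 : ℝ) ^ n / 8192)) :=
              mul_le_mul h2 hc (Nat.cast_nonneg c) (mul_nonneg hB0.le (Real.rpow_nonneg hσ _))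
          _ = _ := by ring

theorem pwr_le (s r : ℕ) (hr : r < 8192) :
    (pwr s r : ℝ) ≤ 2 ^ 60 * ((s : ℝ) / 2 ^ 60) ^ ((r : ℝ) / 8192) := by
  rw [pwr_eq]
  have hB0 : (0:ℝ) < 2 ^ 60 := by positivity
  apply loop_le r ((s : ℝ) / 2 ^ 60) (2 ^ 60) (by positivity) rfl
  · have : (2 : ℝ) ^ 13 / 8192 = 1 := by norm_num
    rw [this, Real.rpow_one, mul_div_cancel₀ _ hB0.ne']
  · have h0 : r / 2 ^ 13 = 0 := Nat.div_eq_of_lt (by omega)
    rw [h0, sl, one_mul, Nat.cast_zero, mul_zero, zero_div, Real.rpow_zero, mul_one, Nat.cast_pow,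
      Nat.cast_two]

theorem bA : Pool.Agent.Helper63.P705.BA := by
  refine ⟨sqF_sq, fun s P hP => ?_⟩
  unfold pwL
  rw [Pool.Agent.Helper63.P705.sq_eq, sr, sr, sr]
  have hland : Nat.land P 8191 = P % 8192 := by
    have := Nat.and_two_pow_sub_one_eq_mod P 13
    exact this
  rw [hland]
  obtain ⟨m, hm⟩ : ∃ m, m = P / 2 ^ 13 := ⟨_, rfl⟩
  obtain ⟨r, hr⟩ : ∃ r, r = P % 8192 := ⟨_, rfl⟩
  have hr8 : r < 8192 := by rw [hr]; exact Nat.mod_lt _ (by norm_num)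
  have hm1 : 1 ≤ m := by rw [hm]; omega
  have hP' : P = 8192 * m + r := by
    rw [hm, hr]
    have := Nat.div_add_mod P 8192
    norm_num
    omega
  rw [← hm, ← hr]
  obtain ⟨B, hB⟩ : ∃ B : ℝ, B = 2 ^ 60 := ⟨_, rfl⟩
  have hB0 : 0 < B := by rw [hB]; positivity
  obtain ⟨σ, hσ⟩ : ∃ σ : ℝ, σ = (s : ℝ) / B := ⟨_, rfl⟩
  have hσ0 : 0 ≤ σ := by rw [hσ]; positivity
  have hs : (s : ℝ) = B * σ := by rw [hσ]; field_simp
  have h1 : (pwr s r : ℝ) ≤ B * σ ^ ((r : ℝ) / 8192) := by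
    rw [hσ, hB]; exact pwr_le s r hr8
  have h2 : ((Nat.pow s m / 2 ^ (Nat.mul 60 (Nat.sub m 1)) : ℕ) : ℝ) ≤ B * σ ^ m := by
    have h3 := div_cast_le (s ^ m) (60 * (m - 1))
    refine h3.trans ?_
    rw [Nat.cast_pow, hs, pow_mul, ← hB, div_le_iff₀ (pow_pos hB0 _), mul_pow]
    have h4 : B ^ m = B ^ (m - 1) * B := by
      rw [← pow_succ]; congr 1; omega
    rw [h4]
    exact le_of_eq (by ring)
  have he : (P : ℝ) / 8192 = m + (r : ℝ) / 8192 := by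
    rw [hP']; push_cast; ring
  rw [← hB, ← hσ, he, Real.rpow_add_of_nonneg hσ0 (by positivity) (by positivity),
    Real.rpow_natCast]
  have h5 := div_cast_le (Nat.mul (Nat.pow s m / 2 ^ (Nat.mul 60 (Nat.sub m 1))) (pwr s r)) 60
  refine h5.trans ?_
  rw [← hB, div_le_iff₀ hB0]
  have h6 : ((Nat.mul (Nat.pow s m / 2 ^ (Nat.mul 60 (Nat.sub m 1))) (pwr s r) : ℕ) : ℝ) =
      ((Nat.pow s m / 2 ^ (Nat.mul 60 (Nat.sub m 1)) : ℕ) : ℝ) * (pwr s r : ℝ) :=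
    Nat.cast_mul _ _
  rw [h6]
  calc ((Nat.pow s m / 2 ^ (Nat.mul 60 (Nat.sub m 1)) : ℕ) : ℝ) * (pwr s r : ℝ)
      ≤ (B * σ ^ m) * (B * σ ^ ((r : ℝ) / 8192)) :=
        mul_le_mul h2 h1 (Nat.cast_nonneg _) (by positivity)
    _ = _ := by ring

end Pool.Agent.Helper79.BS
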